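import Pool.Agent.Work.MP_499dc6_lc.FZ.Defs

set_option autoImplicit false

namespace Pool.Agent.Work.MP_499dc6_lc.FZ

open Finset

namespace Circuit

variable {L : Type*} {I : Type*} (Q : Circuit L I)

/-- The number of gate inputs that are variables of a set. -/
noncomputable def occ (Y : Finset I) : ℕ :=
  Nat.card {p : Fin Q.size × Fin 2 // ∃ e ∈ Y, Q.input p.1 p.2 = Input.var e}

open Classical in
lemma occ_eq (Y : Finset I) : Q.occ Y =
    (univ.filter (fun p : Fin Q.size × Fin 2 => ∃ e ∈ Y, Q.input p.1 p.2 = Input.var e)).card := by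
  unfold occ
  rw [Nat.card_eq_fintype_card, Fintype.card_subtype]

open Classical in
lemma varInputs_eq : Q.varInputs =
    (univ.filter (fun p : Fin Q.size × Fin 2 => ∃ e, Q.input p.1 p.2 = Input.var e)).card := by
  unfold varInputs
  rw [Nat.card_eq_fintype_card, Fintype.card_subtype]

open Classical in
lemma fanOut_eq (j : Fin Q.size) : Q.fanOut j =
    (univ.filter (fun p : Fin Q.size × Fin 2 => Q.input p.1 p.2 = Input.gate j)).card := by
  unfold fanOut
  rw [Nat.card_eq_fintype_card, Fintype.card_subtype]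

lemma occ_sum {T : Type*} (s : Finset T) (Y : T → Finset I)
    (hY : ∀ a ∈ s, ∀ b ∈ s, a ≠ b → Disjoint (Y a) (Y b)) :
    ∑ t ∈ s, Q.occ (Y t) ≤ Q.varInputs := by
  classical
  rw [varInputs_eq]
  simp only [occ_eq]
  rw [← Finset.card_biUnion]
  · apply Finset.card_le_card
    intro p hp
    rw [mem_biUnion] at hp
    obtain ⟨t, -, ht⟩ := hp
    rw [mem_filter] at ht ⊢
    obtain ⟨-, e, -, he⟩ := ht
    exact ⟨mem_univ _, e, he⟩
  · intro a ha b hb hab
    change Disjoint _ _
    rw [Finset.disjoint_left]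
    intro p hp hp'
    rw [mem_filter] at hp hp'
    obtain ⟨-, e, he, h1⟩ := hp
    obtain ⟨-, e', he', h2⟩ := hp'
    rw [h1] at h2
    have h3 : e = e' := by
      injection h2
    rw [h3] at he
    exact Finset.disjoint_left.1 (hY a ha b hb hab) he he'

open Classical in
lemma count (Y : Finset I) (D : Finset (Fin Q.size)) (N : Fin Q.size → Fin 2 → Prop)
    (hN : ∀ i b, N i b → (∃ e ∈ Y, Q.input i b = Input.var e) ∨
      ∃ j ∈ D, Q.input i b = Input.gate j)
    (hD : ∀ i ∈ D, N i 0 ∨ N i 1) :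
    (D.filter (fun i => N i 0 ∧ N i 1)).card ≤ Q.occ Y + ∑ j ∈ D, (Q.fanOut j - 1) := by
  let A : Finset (Fin Q.size × Fin 2) :=
    (D ×ˢ (univ : Finset (Fin 2))).filter (fun p => N p.1 p.2)
  have h1 : A.card = ∑ i ∈ D, ((if N i 0 then 1 else 0) + (if N i 1 then 1 else 0)) := by
    simp only [A]
    rw [card_filter, sum_product]
    apply Finset.sum_congr rfl
    intro i _
    rw [Fin.sum_univ_two]
  have h2 : D.card + (D.filter (fun i => N i 0 ∧ N i 1)).card ≤ A.card := by
    rw [h1, card_filter, card_eq_sum_ones, ← Finset.sum_add_distrib]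
    apply Finset.sum_le_sum
    intro i hi
    rcases hD i hi with h | h
    · by_cases h' : N i 1 <;> simp [h, h']
    · by_cases h' : N i 0 <;> simp [h, h']
  have h3 : A.card ≤ Q.occ Y + ∑ j ∈ D, Q.fanOut j := by
    rw [occ_eq]
    simp only [fanOut_eq]
    have h4 : A ⊆ (univ.filter (fun p : Fin Q.size × Fin 2 =>
        ∃ e ∈ Y, Q.input p.1 p.2 = Input.var e)) ∪
        D.biUnion (fun j => univ.filter (fun p : Fin Q.size × Fin 2 =>
          Q.input p.1 p.2 = Input.gate j)) := by
      intro p hp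
      simp only [A] at hp
      rw [mem_filter] at hp
      rw [mem_union, mem_filter, mem_biUnion]
      rcases hN p.1 p.2 hp.2 with h | ⟨j, hj, h⟩
      · exact Or.inl ⟨mem_univ _, h⟩
      · refine Or.inr ⟨j, hj, ?_⟩
        rw [mem_filter]
        exact ⟨mem_univ _, h⟩
    exact (card_le_card h4).trans ((card_union_le _ _).trans
      (Nat.add_le_add_left card_biUnion_le _))
  have h5 : ∑ j ∈ D, Q.fanOut j ≤ D.card + ∑ j ∈ D, (Q.fanOut j - 1) := by
    have h6 : ∑ j ∈ D, Q.fanOut j ≤ ∑ j ∈ D, (1 + (Q.fanOut j - 1)) := by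
      apply Finset.sum_le_sum
      intro j _
      omega
    rwa [Finset.sum_add_distrib, ← card_eq_sum_ones] at h6
  omega

lemma count_le (Y : Finset I) (D : Finset (Fin Q.size)) (N : Fin Q.size → Fin 2 → Prop)
    (hN : ∀ i b, N i b → (∃ e ∈ Y, Q.input i b = Input.var e) ∨
      ∃ j ∈ D, Q.input i b = Input.gate j)
    (hD : ∀ i ∈ D, N i 0 ∨ N i 1) (M : Finset (Fin Q.size))
    (hM : ∀ i ∈ M, i ∈ D ∧ N i 0 ∧ N i 1) :
    M.card ≤ Q.occ Y + ∑ j ∈ D, (Q.fanOut j - 1) := by
  classical
  refine le_trans (card_le_card ?_) (Q.count Y D N hN hD)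
  intro i hi
  rw [mem_filter]
  exact hM i hi

open Classical in
/-- The reuse of the gates that read a variable of the set. -/
noncomputable def reuseAt (Y : Finset I) : ℕ :=
  ∑ j ∈ (univ : Finset (Fin Q.size)).filter (fun j => ∃ e ∈ Y, Q.Reads j e), (Q.fanOut j - 1)

lemma finite_reads (j : Fin Q.size) : {e | Q.Reads j e}.Finite := by
  have h : Set.Finite {e | ∃ p : Fin Q.size × Fin 2, Q.input p.1 p.2 = Input.var e} := by
    have h1 : Set.Finite (Set.range (fun p : Fin Q.size × Fin 2 => Q.input p.1 p.2)) :=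
      Set.finite_range _
    have h2 : Set.InjOn (fun e : I => (Input.var e : Input L I Q.size))
        ((fun e : I => (Input.var e : Input L I Q.size)) ⁻¹'
          (Set.range (fun p : Fin Q.size × Fin 2 => Q.input p.1 p.2))) := by
      intro a _ b _ hab
      injection hab
    exact (h1.preimage h2).subset (fun e he => by
      obtain ⟨p, hp⟩ := he
      exact ⟨p, hp⟩)
  apply h.subset
  intro e he
  induction he with
  | var i b e h => exact ⟨(i, b), h⟩
  | gate i b j e _ _ ih => exact ih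

lemma reuse_sum {T : Type*} (s : Finset T) (Y : T → Finset I)
    (hY : ∀ a ∈ s, ∀ b ∈ s, a ≠ b → Disjoint (Y a) (Y b)) :
    ∑ t ∈ s, Q.reuseAt (Y t) ≤ ∑ j, (Q.fanOut j - 1) * min (Q.numVars j) s.card := by
  classical
  unfold reuseAt
  simp only [Finset.sum_filter]
  rw [Finset.sum_comm]
  apply Finset.sum_le_sum
  intro j _
  rw [← Finset.sum_filter, Finset.sum_const, smul_eq_mul, mul_comm]
  apply Nat.mul_le_mul_left
  rw [le_min_iff]
  refine ⟨?_, card_filter_le _ _⟩
  -- every block contains a variable of its own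
  have hfin : Finite {e // Q.Reads j e} := Q.finite_reads j
  have hch : ∀ t : {t // t ∈ s.filter (fun t => ∃ e ∈ Y t, Q.Reads j e)},
      ∃ e ∈ Y t.1, Q.Reads j e := fun t => (mem_filter.1 t.2).2
  choose f hf1 hf2 using hch
  have hinj : Function.Injective (fun t => (⟨f t, hf2 t⟩ : {e // Q.Reads j e})) := by
    intro t t' htt
    have h1 : f t = f t' := congrArg Subtype.val htt
    by_contra hne
    have h2 : t.1 ≠ t'.1 := fun h => hne (Subtype.ext h)
    have h3 := hY t.1 (mem_filter.1 t.2).1 t'.1 (mem_filter.1 t'.2).1 h2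
    exact Finset.disjoint_left.1 h3 (hf1 t) (h1 ▸ hf1 t')
  have h4 := Nat.card_le_card_of_injective _ hinj
  rwa [Nat.card_eq_fintype_card, Fintype.card_coe] at h4

end Circuit

end Pool.Agent.Work.MP_499dc6_lc.FZ
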