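import Mathlib

/-!
# Arithmetic circuits with division

A circuit is a finite sequence of gates of fan-in two. The operation of a gate is one of
`+`, `-`, `*`, `/` and each of its two inputs is a variable, a constant or an earlier gate.
-/

set_option autoImplicit false

namespace Pool.Agent.Work.MP_499dc6_lc.FZ

open MvPolynomial

/-- The operation of a gate. -/
inductive Op
  | add
  | sub
  | mul
  | div

/-- Applying the operation of a gate in a field (the quotient by zero is zero). -/
def Op.app {F : Type*} [Field F] : Op → F → F → F
  | Op.add, x, y => x + y
  | Op.sub, x, y => x - y
  | Op.mul, x, y => x * y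
  | Op.div, x, y => x / y

/-- An input of a gate in a circuit with `s` gates: a variable, a constant or a gate. -/
inductive Input (L : Type*) (I : Type*) (s : ℕ)
  | var (e : I)
  | const (c : L)
  | gate (j : Fin s)

/-- The value of an input, where `v` gives the values of the gates. -/
noncomputable def Input.val {L : Type*} [Field L] {I : Type*} {s : ℕ}
    (v : Fin s → FractionRing (MvPolynomial I L)) :
    Input L I s → FractionRing (MvPolynomial I L)
  | Input.var e => algebraMap (MvPolynomial I L) _ (X e)
  | Input.const c => algebraMap (MvPolynomial I L) _ (C c)
  | Input.gate j => v j

/-- An arithmetic circuit over the field `L` in variables indexed by `I`: each of its `size` gates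
has an operation and two inputs, which are variables, constants or earlier gates. -/
structure Circuit (L : Type*) (I : Type*) where
  size : ℕ
  op : Fin size → Op
  input : Fin size → Fin 2 → Input L I size
  earlier : ∀ i b j, input i b = Input.gate j → j < i

namespace Circuit

variable {L : Type*} {I : Type*}

/-- The circuit computes the polynomial `f`: there are rational functions `v i`, the values of the
gates, such that each of them results from the inputs of the gate by its operation, and one of
them is `f`. -/
def Computes [Field L] (Q : Circuit L I) (f : MvPolynomial I L) : Prop :=
  ∃ v : Fin Q.size → FractionRing (MvPolynomial I L),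
    (∀ i, v i = (Q.op i).app ((Q.input i 0).val v) ((Q.input i 1).val v)) ∧
    ∃ i, v i = algebraMap (MvPolynomial I L) _ f

/-- The number of gate inputs that are variables. -/
noncomputable def varInputs (Q : Circuit L I) : ℕ :=
  Nat.card {p : Fin Q.size × Fin 2 // ∃ e, Q.input p.1 p.2 = Input.var e}

/-- The fan-out of a gate: the number of gate inputs that are this gate. -/
noncomputable def fanOut (Q : Circuit L I) (j : Fin Q.size) : ℕ :=
  Nat.card {p : Fin Q.size × Fin 2 // Q.input p.1 p.2 = Input.gate j}

/-- The gate `i` reads the variable `e`: the variable is an input of the gate or of one of the
gates below it. -/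
inductive Reads (Q : Circuit L I) : Fin Q.size → I → Prop
  | var (i : Fin Q.size) (b : Fin 2) (e : I) : Q.input i b = Input.var e → Reads Q i e
  | gate (i : Fin Q.size) (b : Fin 2) (j : Fin Q.size) (e : I) :
      Q.input i b = Input.gate j → Reads Q j e → Reads Q i e

/-- The number of variables that a gate reads. -/
noncomputable def numVars (Q : Circuit L I) (j : Fin Q.size) : ℕ :=
  Nat.card {e // Q.Reads j e}

/-- The depth: the least number `D` of levels on which the gates can be placed such that the
gates among the inputs of a gate are on lower levels. -/
noncomputable def depth (Q : Circuit L I) : ℕ :=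
  sInf {D | ∃ d : Fin Q.size → Fin D, ∀ i b j, Q.input i b = Input.gate j → d j < d i}

end Circuit

end Pool.Agent.Work.MP_499dc6_lc.FZ
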