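import Pool.Agent.Work.MP_499dc6_lc.FZ.Count

set_option autoImplicit false

namespace Pool.Agent.Work.MP_499dc6_lc.FZ

open Finset TrivSqZeroExt

variable {F Ω V : Type*} [Field F] [Field Ω] [AddCommGroup V] [Module Ω V] [Module Ωᵐᵒᵖ V]
  [IsCentralScalar Ω V]

section Dual

lemma snd_mul_mem {W : Submodule Ω V} {x y : TrivSqZeroExt Ω V} (hx : x.snd ∈ W)
    (hy : y.snd ∈ W) : (x * y).snd ∈ W := by
  rw [snd_mul]
  simp only [op_smul_eq_smul]
  exact W.add_mem (W.smul_mem _ hy) (W.smul_mem _ hx)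

lemma snd_add_mem {W : Submodule Ω V} {x y : TrivSqZeroExt Ω V} (hx : x.snd ∈ W)
    (hy : y.snd ∈ W) : (x + y).snd ∈ W := by
  rw [snd_add]
  exact W.add_mem hx hy

lemma snd_sub_mem {W : Submodule Ω V} {x y : TrivSqZeroExt Ω V} (hx : x.snd ∈ W)
    (hy : y.snd ∈ W) : (x - y).snd ∈ W := by
  rw [snd_sub]
  exact W.sub_mem hx hy

lemma snd_of_mul_mem {W : Submodule Ω V} {x u : TrivSqZeroExt Ω V} (hu : IsUnit u)
    (h1 : u.snd ∈ W) (h2 : (x * u).snd ∈ W) : x.snd ∈ W := by
  rw [isUnit_iff_isUnit_fst] at hu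
  rw [snd_mul] at h2
  simp only [op_smul_eq_smul] at h2
  have h3 : u.fst • x.snd ∈ W := by
    have h4 := W.sub_mem h2 (W.smul_mem x.fst h1)
    rwa [add_sub_cancel_left] at h4
  have h5 := W.smul_mem (u.fst⁻¹) h3
  rwa [smul_smul, inv_mul_cancel₀ hu.ne_zero, one_smul] at h5

end Dual

variable {T : Type*} (φ : T → F →+* TrivSqZeroExt Ω V)

/-- The value does not depend on the parameter. -/
def Const (x : F) : Prop := ∀ t t', φ t x = φ t' x

/-- The values are fractional linear transforms, with coefficients that do not depend on the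
parameter, of elements with derivative in `W`. -/
def Rep (W : Submodule Ω V) (x : F) : Prop :=
  ∃ (a b c d : TrivSqZeroExt Ω V) (h : T → TrivSqZeroExt Ω V), (∀ t, (h t).snd ∈ W) ∧
    (∀ t, IsUnit (c * h t + d)) ∧ ∀ t, φ t x * (c * h t + d) = a * h t + b

variable {φ}

lemma Const.add {x y : F} (hx : Const φ x) (hy : Const φ y) : Const φ (x + y) := by
  intro t t'
  rw [map_add, map_add, hx t t', hy t t']

lemma Const.mul {x y : F} (hx : Const φ x) (hy : Const φ y) : Const φ (x * y) := by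
  intro t t'
  rw [map_mul, map_mul, hx t t', hy t t']

lemma Const.neg {x : F} (hx : Const φ x) : Const φ (-x) := by
  intro t t'
  rw [map_neg, map_neg, hx t t']

lemma Const.one : Const φ (1 : F) := by
  intro t t'
  rw [map_one, map_one]

lemma isUnit_map (t : T) {x : F} (hx : x ≠ 0) : IsUnit (φ t x) :=
  (IsUnit.mk0 x hx).map (φ t)

lemma Const.inv {x : F} (hx : Const φ x) : Const φ x⁻¹ := by
  intro t t'
  by_cases h0 : x = 0
  · rw [h0, inv_zero, map_zero, map_zero]
  · have h1 : φ t x⁻¹ * φ t x = 1 := by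
      rw [← map_mul, inv_mul_cancel₀ h0, map_one]
    have h2 : φ t' x⁻¹ * φ t x = 1 := by
      rw [hx t t', ← map_mul, inv_mul_cancel₀ h0, map_one]
    exact (isUnit_map t h0).mul_right_cancel (h1.trans h2.symm)

lemma Const.app {x y : F} (o : Op) (hx : Const φ x) (hy : Const φ y) : Const φ (o.app x y) := by
  cases o with
  | add => exact hx.add hy
  | sub =>
    change Const φ (x - y)
    rw [sub_eq_add_neg]
    exact hx.add hy.neg
  | mul => exact hx.mul hy
  | div =>
    change Const φ (x / y)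
    rw [div_eq_mul_inv]
    exact hx.mul hy.inv

lemma Rep.mono {W W' : Submodule Ω V} (hW : W ≤ W') {x : F} (h : Rep φ W x) : Rep φ W' x := by
  obtain ⟨a, b, c, d, h, h1, h2, h3⟩ := h
  exact ⟨a, b, c, d, h, fun t => hW (h1 t), h2, h3⟩

lemma Rep.of_mem {W : Submodule Ω V} {x : F} (h : ∀ t, (φ t x).snd ∈ W) : Rep φ W x :=
  ⟨1, 0, 0, 1, fun t => φ t x, h, fun t => by simp, fun t => by simp⟩

lemma Rep.of_const [Nonempty T] {W : Submodule Ω V} {x : F} (h : Const φ x) : Rep φ W x := by
  obtain ⟨t0⟩ := ‹Nonempty T›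
  exact ⟨0, φ t0 x, 0, 1, fun _ => 0, fun t => by simp, fun t => by simp,
    fun t => by simp [h t t0]⟩

lemma Rep.add_const [Nonempty T] {W : Submodule Ω V} {x y : F} (hx : Rep φ W x)
    (hy : Const φ y) : Rep φ W (x + y) := by
  obtain ⟨t0⟩ := ‹Nonempty T›
  obtain ⟨a, b, c, d, h, h1, h2, h3⟩ := hx
  refine ⟨a + φ t0 y * c, b + φ t0 y * d, c, d, h, h1, h2, fun t => ?_⟩
  rw [map_add, add_mul, h3, hy t t0]
  ring

lemma Rep.mul_const [Nonempty T] {W : Submodule Ω V} {x y : F} (hx : Rep φ W x)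
    (hy : Const φ y) : Rep φ W (x * y) := by
  obtain ⟨t0⟩ := ‹Nonempty T›
  obtain ⟨a, b, c, d, h, h1, h2, h3⟩ := hx
  refine ⟨φ t0 y * a, φ t0 y * b, c, d, h, h1, h2, fun t => ?_⟩
  rw [map_mul, hy t t0, mul_assoc, mul_comm (φ t0 y), ← mul_assoc, h3]
  ring

lemma Rep.inv {W : Submodule Ω V} {x : F} (hx : Rep φ W x) : Rep φ W x⁻¹ := by
  by_cases h0 : x = 0
  · rw [h0, inv_zero, ← h0]
    exact hx
  · obtain ⟨a, b, c, d, h, h1, h2, h3⟩ := hx
    refine ⟨c, d, a, b, h, h1, fun t => ?_, fun t => ?_⟩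
    · rw [← h3]
      exact (isUnit_map t h0).mul (h2 t)
    · rw [← h3, ← mul_assoc, ← map_mul, inv_mul_cancel₀ h0, map_one, one_mul]

lemma Rep.app_left [Nonempty T] {W : Submodule Ω V} {x y : F} (o : Op) (hx : Rep φ W x)
    (hy : Const φ y) : Rep φ W (o.app x y) := by
  cases o with
  | add => exact hx.add_const hy
  | sub =>
    change Rep φ W (x - y)
    rw [sub_eq_add_neg]
    exact hx.add_const hy.neg
  | mul => exact hx.mul_const hy
  | div =>
    change Rep φ W (x / y)
    rw [div_eq_mul_inv]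
    exact hx.mul_const hy.inv

lemma Rep.app_right [Nonempty T] {W : Submodule Ω V} {x y : F} (o : Op) (hx : Const φ x)
    (hy : Rep φ W y) : Rep φ W (o.app x y) := by
  cases o with
  | add =>
    change Rep φ W (x + y)
    rw [add_comm]
    exact hy.add_const hx
  | sub =>
    change Rep φ W (x - y)
    have h : x - y = y * (-1) + x := by ring
    rw [h]
    exact (hy.mul_const Const.one.neg).add_const hx
  | mul =>
    change Rep φ W (x * y)
    rw [mul_comm]
    exact hy.mul_const hx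
  | div =>
    change Rep φ W (x / y)
    rw [div_eq_mul_inv, mul_comm]
    exact hy.inv.mul_const hx

/-- Four more dimensions make the values elements with derivative in the subspace. -/
lemma Rep.exists_mem [FiniteDimensional Ω V] {W : Submodule Ω V} {x : F} (hx : Rep φ W x) :
    ∃ S : Submodule Ω V, Module.finrank Ω S ≤ 4 ∧ ∀ W' : Submodule Ω V, W ≤ W' → S ≤ W' →
      ∀ t, (φ t x).snd ∈ W' := by
  classical
  obtain ⟨a, b, c, d, h, h1, h2, h3⟩ := hx
  let S : Finset V := {a.snd, b.snd, c.snd, d.snd}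
  refine ⟨Submodule.span Ω (S : Set V), ?_, ?_⟩
  · have e3 : Module.finrank Ω (Submodule.span Ω (S : Set V)) ≤ S.card :=
      finrank_span_finset_le_card (R := Ω) S
    have e4 : S.card ≤ 4 := Finset.card_le_four
    omega
  · intro W' hW hS t
    have ha : a.snd ∈ W' := hS (Submodule.subset_span (by simp [S]))
    have hb : b.snd ∈ W' := hS (Submodule.subset_span (by simp [S]))
    have hc : c.snd ∈ W' := hS (Submodule.subset_span (by simp [S]))
    have hd : d.snd ∈ W' := hS (Submodule.subset_span (by simp [S]))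
    have hh : (h t).snd ∈ W' := hW (h1 t)
    apply snd_of_mul_mem (h2 t) (snd_add_mem (snd_mul_mem hc hh) hd)
    rw [h3]
    exact snd_add_mem (snd_mul_mem ha hh) hb

/-- A gate with two inputs whose derivatives lie in a subspace. -/
lemma app_mem {W : Submodule Ω V} {x y : F} (o : Op) (hx : ∀ t, (φ t x).snd ∈ W)
    (hy : ∀ t, (φ t y).snd ∈ W) (t : T) : (φ t (o.app x y)).snd ∈ W := by
  cases o with
  | add =>
    change (φ t (x + y)).snd ∈ W
    rw [map_add]
    exact snd_add_mem (hx t) (hy t)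
  | sub =>
    change (φ t (x - y)).snd ∈ W
    rw [map_sub]
    exact snd_sub_mem (hx t) (hy t)
  | mul =>
    change (φ t (x * y)).snd ∈ W
    rw [map_mul]
    exact snd_mul_mem (hx t) (hy t)
  | div =>
    change (φ t (x / y)).snd ∈ W
    by_cases h0 : y = 0
    · rw [h0, div_zero, map_zero, snd_zero]
      exact W.zero_mem
    · apply snd_of_mul_mem (isUnit_map t h0) (hy t)
      rw [← map_mul, div_mul_cancel₀ _ h0]
      exact hx t

end Pool.Agent.Work.MP_499dc6_lc.FZ
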