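import Pool.Agent.Work.MP_499dc6_lc.FZ.Main

set_option autoImplicit false

namespace Pool.Agent.Work.MP_499dc6_lc.FZ

open Finset

open scoped PowerSeries

universe u

namespace Circuit

variable {L : Type*} {I : Type*} (Q : Circuit L I)

/-- The number of wires. -/
lemma varInputs_add_le : Q.varInputs + ∑ j, Q.fanOut j ≤ 2 * Q.size := by
  classical
  have h1 : Q.varInputs + ∑ j, Q.fanOut j = ∑ p : Fin Q.size × Fin 2,
      ((if ∃ e, Q.input p.1 p.2 = Input.var e then 1 else 0) +
        ∑ j, if Q.input p.1 p.2 = Input.gate j then 1 else 0) := by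
    rw [Finset.sum_add_distrib, Finset.sum_comm, varInputs_eq, card_filter]
    congr 1
    apply Finset.sum_congr rfl
    intro j _
    rw [fanOut_eq, card_filter]
  rw [h1]
  have h2 : ∀ p ∈ (univ : Finset (Fin Q.size × Fin 2)),
      ((if ∃ e, Q.input p.1 p.2 = Input.var e then 1 else 0) +
        ∑ j, if Q.input p.1 p.2 = Input.gate j then 1 else 0) ≤ 1 := by
    intro p _
    rcases hx : Q.input p.1 p.2 with e | c | j
    · simp
    · simp
    · simp
  refine (Finset.sum_le_sum h2).trans ?_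
  rw [Finset.sum_const, Finset.card_univ, Fintype.card_prod, Fintype.card_fin, Fintype.card_fin,
    smul_eq_mul, mul_one, mul_comm]

end Circuit

variable {K : Type u} [Field K] {n : ℕ}

/-- Circuits with local reuse. -/
theorem circuit_local_clog [CharZero K] (hn : 70 ≤ n)
    (Q : Circuit (LaurentSeries K) (Fin n × Fin n)) (R : MvPolynomial (Fin n × Fin n) K⟦X⟧)
    (hQ : Q.Computes (MvPolynomial.map (algebraMap K⟦X⟧ (LaurentSeries K))
      (permP K⟦X⟧ n + MvPolynomial.C PowerSeries.X * R)))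
    (k : ℕ) (hk : 1 ≤ k) (h : ∀ j, 2 ≤ Q.fanOut j → Q.numVars j ≤ k) :
    n ^ 4 ≤ 64 * Nat.clog 2 n * k * Q.size := by
  have h1 := circuit_bound_clog hn Q R hQ
  have h2 : ∑ j, (Q.fanOut j - 1) * min (2 * Nat.clog 2 n * Q.numVars j) (n ^ 2) ≤
      2 * Nat.clog 2 n * k * ∑ j, Q.fanOut j := by
    rw [Finset.mul_sum]
    apply Finset.sum_le_sum
    intro j _
    by_cases hj : 2 ≤ Q.fanOut j
    · calc (Q.fanOut j - 1) * min (2 * Nat.clog 2 n * Q.numVars j) (n ^ 2)
          ≤ Q.fanOut j * (2 * Nat.clog 2 n * k) :=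
            Nat.mul_le_mul (Nat.sub_le _ _)
              ((min_le_left _ _).trans (Nat.mul_le_mul_left _ (h j hj)))
        _ = 2 * Nat.clog 2 n * k * Q.fanOut j := by ring
    · have h3 : Q.fanOut j - 1 = 0 := by omega
      rw [h3, zero_mul]
      exact Nat.zero_le _
  have h3 := Q.varInputs_add_le
  calc n ^ 4 ≤ 32 * Nat.clog 2 n * Q.varInputs +
        16 * ∑ j, (Q.fanOut j - 1) * min (2 * Nat.clog 2 n * Q.numVars j) (n ^ 2) := h1
    _ ≤ 32 * Nat.clog 2 n * (k * Q.varInputs) +
        16 * (2 * Nat.clog 2 n * k * ∑ j, Q.fanOut j) := by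
      apply Nat.add_le_add
      · apply Nat.mul_le_mul_left
        exact Nat.le_mul_of_pos_left _ hk
      · exact Nat.mul_le_mul_left _ h2
    _ = 32 * Nat.clog 2 n * k * (Q.varInputs + ∑ j, Q.fanOut j) := by ring
    _ ≤ 32 * Nat.clog 2 n * k * (2 * Q.size) := Nat.mul_le_mul_left _ h3
    _ = 64 * Nat.clog 2 n * k * Q.size := by ring

end Pool.Agent.Work.MP_499dc6_lc.FZ
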