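import Mathlib

set_option autoImplicit false

namespace Pool.Agent.Work.MP_499dc6_lc.FZ

open MvPolynomial TrivSqZeroExt

section Tmap

variable {S S' : Type*} [CommRing S] [CommRing S'] (f : S →+* S') (c : Type*)

/-- Base change of dual numbers. -/
def tmap : TrivSqZeroExt S (c → S) →+* TrivSqZeroExt S' (c → S') where
  toFun x := inl (f x.fst) + inr (fun p => f (x.snd p))
  map_one' := by
    ext <;> simp
  map_mul' x y := by
    apply TrivSqZeroExt.ext
    · simp
    · funext p
      simp
  map_zero' := by
    ext <;> simp
  map_add' x y := by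
    apply TrivSqZeroExt.ext
    · simp
    · funext p
      simp

lemma fst_tmap (x : TrivSqZeroExt S (c → S)) : (tmap f c x).fst = f x.fst := by
  simp [tmap]

lemma snd_tmap (x : TrivSqZeroExt S (c → S)) (p : c) : (tmap f c x).snd p = f (x.snd p) := by
  simp [tmap]

end Tmap

variable {O I : Type*} [CommRing O] {c : Type*}

/-- Evaluation at a point over the dual numbers. -/
noncomputable def EV {S : Type*} [CommRing S] (g : O →+* S) (ξ : I → S) (u : I → c → ℕ) :
    MvPolynomial I O →+* TrivSqZeroExt S (c → S) :=
  eval₂Hom ((inlHom S (c → S)).comp g) (fun e => inl (ξ e) + inr (fun p => (u e p : S)))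

lemma tmap_EV {S S' : Type*} [CommRing S] [CommRing S'] (f : S →+* S') (g : O →+* S)
    (ξ : I → S) (u : I → c → ℕ) (P : MvPolynomial I O) :
    tmap f c (EV g ξ u P) = EV (f.comp g) (fun e => f (ξ e)) u P := by
  have h : (tmap f c).comp (EV g ξ u) = EV (f.comp g) (fun e => f (ξ e)) u := by
    apply MvPolynomial.ringHom_ext
    · intro r
      apply TrivSqZeroExt.ext
      · simp [EV, tmap]
      · funext p
        simp [EV, tmap]
    · intro e
      apply TrivSqZeroExt.ext
      · simp [EV, tmap]
      · funext p
        simp [EV, tmap]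
  exact congrArg (fun q => q P) (congrArg DFunLike.coe h)

lemma EV_map {O' S : Type*} [CommRing O'] [CommRing S] (i : O →+* O') (g : O' →+* S)
    (ξ : I → S) (u : I → c → ℕ) (P : MvPolynomial I O) :
    EV g ξ u (MvPolynomial.map i P) = EV (g.comp i) ξ u P := by
  have h : (EV g ξ u).comp (MvPolynomial.map i) = EV (g.comp i) ξ u := by
    apply MvPolynomial.ringHom_ext
    · intro r
      simp [EV]
    · intro e
      simp [EV]
  exact congrArg (fun q => q P) (congrArg DFunLike.coe h)

lemma fst_EV {S : Type*} [CommRing S] (g : O →+* S) (ξ : I → S) (u : I → c → ℕ)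
    (P : MvPolynomial I O) : (EV g ξ u P).fst = eval₂Hom g ξ P := by
  have h : ((fstHom S S (c → S)).toRingHom).comp (EV g ξ u) = eval₂Hom g ξ := by
    apply MvPolynomial.ringHom_ext
    · intro r
      simp [EV]
    · intro e
      simp [EV]
  exact congrArg (fun q => q P) (congrArg DFunLike.coe h)

section Phi

variable (L : Type*) [Field L]

/-- The function field. -/
abbrev Rat (L : Type*) [Field L] (I : Type*) := FractionRing (MvPolynomial I L)

/-- The generic point near the point `s`. -/
noncomputable def gen {L : Type*} [Field L] (s : I → L) (e : I) : Rat L I :=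
  algebraMap (MvPolynomial I L) (Rat L I) (C (s e) + X e)

lemma eval_gen_injective {L : Type*} [Field L] (s : I → L) : Function.Injective
    (eval₂Hom ((algebraMap (MvPolynomial I L) (Rat L I)).comp C) (gen s)) := by
  have h : eval₂Hom ((algebraMap (MvPolynomial I L) (Rat L I)).comp C) (gen s) =
      (algebraMap (MvPolynomial I L) (Rat L I)).comp
        (eval₂Hom (C : L →+* MvPolynomial I L) (fun e => C (s e) + X e)) := by
    apply MvPolynomial.ringHom_ext
    · intro r
      simp
    · intro e
      simp [gen]
  rw [h]
  apply (IsFractionRing.injective (MvPolynomial I L) (Rat L I)).comp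
  -- the shift has an inverse
  have h2 : Function.LeftInverse
      (eval₂Hom (C : L →+* MvPolynomial I L) (fun e => - C (s e) + X e))
      (eval₂Hom (C : L →+* MvPolynomial I L) (fun e => C (s e) + X e)) := by
    intro P
    have h3 : (eval₂Hom (C : L →+* MvPolynomial I L) (fun e => - C (s e) + X e)).comp
        (eval₂Hom (C : L →+* MvPolynomial I L) (fun e => C (s e) + X e)) =
        RingHom.id (MvPolynomial I L) := by
      apply MvPolynomial.ringHom_ext
      · intro r
        simp
      · intro e
        simp
    exact congrArg (fun q => q P) (congrArg DFunLike.coe h3)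
  exact h2.injective

lemma isUnit_EV {L : Type*} [Field L] (s : I → L) (u : I → c → ℕ)
    (q : nonZeroDivisors (MvPolynomial I L)) :
    IsUnit (EV ((algebraMap (MvPolynomial I L) (Rat L I)).comp C) (gen s) u
      (q : MvPolynomial I L)) := by
  rw [isUnit_iff_isUnit_fst, fst_EV]
  apply IsUnit.mk0
  intro h
  have h1 : (q : MvPolynomial I L) = 0 := by
    apply eval_gen_injective s
    rw [h, map_zero]
  exact nonZeroDivisors.ne_zero q.2 h1

/-- Evaluation of rational functions at the generic point near `s` over the dual numbers. -/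
noncomputable def phi {L : Type*} [Field L] (s : I → L) (u : I → c → ℕ) :
    Rat L I →+* TrivSqZeroExt (Rat L I) (c → Rat L I) :=
  IsLocalization.lift (M := nonZeroDivisors (MvPolynomial I L))
    (g := EV ((algebraMap (MvPolynomial I L) (Rat L I)).comp C) (gen s) u)
    (isUnit_EV s u)

lemma phi_algebraMap {L : Type*} [Field L] (s : I → L) (u : I → c → ℕ)
    (P : MvPolynomial I L) : phi s u (algebraMap (MvPolynomial I L) (Rat L I) P) =
      EV ((algebraMap (MvPolynomial I L) (Rat L I)).comp C) (gen s) u P := by
  unfold phi
  exact IsLocalization.lift_eq _ P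

lemma phi_C {L : Type*} [Field L] (s : I → L) (u : I → c → ℕ) (a : L) :
    phi s u (algebraMap (MvPolynomial I L) (Rat L I) (C a)) =
      inl (algebraMap (MvPolynomial I L) (Rat L I) (C a)) := by
  rw [phi_algebraMap]
  simp [EV]

lemma phi_X {L : Type*} [Field L] (s : I → L) (u : I → c → ℕ) (e : I) :
    phi s u (algebraMap (MvPolynomial I L) (Rat L I) (X e)) =
      inl (gen s e) + inr (fun p => (u e p : Rat L I)) := by
  rw [phi_algebraMap]
  simp [EV]

end Phi

end Pool.Agent.Work.MP_499dc6_lc.FZ
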