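import Pool.Agent.Work.MP_499dc6_lc.FZ.Dual

set_option autoImplicit false

namespace Pool.Agent.Work.MP_499dc6_lc.FZ

open Finset TrivSqZeroExt

variable {L I Ω V : Type*} [Field L] [Field Ω] [AddCommGroup V] [Module Ω V] [Module Ωᵐᵒᵖ V]
  [IsCentralScalar Ω V] [FiniteDimensional Ω V] {T : Type*} [Nonempty T]

/-- The values of the inputs of a gate. -/
lemma rep_input (Q : Circuit L I) (Y : Finset I)
    (φ : T → FractionRing (MvPolynomial I L) →+* TrivSqZeroExt Ω V)
    (hY : ∀ e ∈ Y, ∀ t, (φ t (algebraMap (MvPolynomial I L) _ (MvPolynomial.X e))).snd = 0)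
    (hN : ∀ e, e ∉ Y → Const φ (algebraMap (MvPolynomial I L) _ (MvPolynomial.X e)))
    (hC : ∀ c : L, Const φ (algebraMap (MvPolynomial I L) _ (MvPolynomial.C c)))
    (v : Fin Q.size → FractionRing (MvPolynomial I L)) (W : Submodule Ω V) (i : Fin Q.size)
    (hW : ∀ j, j < i → Rep φ W (v j)) (b : Fin 2) : Rep φ W ((Q.input i b).val v) := by
  rcases h : Q.input i b with e | c | j
  · change Rep φ W (algebraMap (MvPolynomial I L) _ (MvPolynomial.X e))
    by_cases he : e ∈ Y
    · apply Rep.of_mem
      intro t
      rw [hY e he t]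
      exact W.zero_mem
    · exact Rep.of_const (hN e he)
  · exact Rep.of_const (hC c)
  · exact hW j (Q.earlier i b j h)

open Classical in
/-- The induction over the gates. -/
lemma induction_gates (Q : Circuit L I) (Y : Finset I)
    (φ : T → FractionRing (MvPolynomial I L) →+* TrivSqZeroExt Ω V)
    (hY : ∀ e ∈ Y, ∀ t, (φ t (algebraMap (MvPolynomial I L) _ (MvPolynomial.X e))).snd = 0)
    (hN : ∀ e, e ∉ Y → Const φ (algebraMap (MvPolynomial I L) _ (MvPolynomial.X e)))
    (hC : ∀ c : L, Const φ (algebraMap (MvPolynomial I L) _ (MvPolynomial.C c)))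
    (v : Fin Q.size → FractionRing (MvPolynomial I L))
    (hv : ∀ i, v i = (Q.op i).app ((Q.input i 0).val v) ((Q.input i 1).val v)) (k : ℕ) :
    ∃ W : Submodule Ω V, Module.finrank Ω W ≤ 8 *
      (((univ : Finset (Fin Q.size)).filter (fun i => ¬ Const φ (v i))).filter (fun i : Fin Q.size =>
        (i : ℕ) < k ∧ (¬ Const φ ((Q.input i 0).val v) ∧ ¬ Const φ ((Q.input i 1).val v)))).card ∧
      ∀ i : Fin Q.size, (i : ℕ) < k → Rep φ W (v i) := by
  induction k with
  | zero =>
    refine ⟨⊥, ?_, ?_⟩
    · rw [finrank_bot]
      exact Nat.zero_le _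
    · intro i hi
      exact absurd hi (Nat.not_lt_zero _)
  | succ k ih =>
    obtain ⟨W, hW1, hW2⟩ := ih
    have hmono : (((univ : Finset (Fin Q.size)).filter (fun i => ¬ Const φ (v i))).filter
        (fun i : Fin Q.size => (i : ℕ) < k ∧ (¬ Const φ ((Q.input i 0).val v) ∧
          ¬ Const φ ((Q.input i 1).val v)))).card ≤
        (((univ : Finset (Fin Q.size)).filter (fun i => ¬ Const φ (v i))).filter
        (fun i : Fin Q.size => (i : ℕ) < k + 1 ∧ (¬ Const φ ((Q.input i 0).val v) ∧
          ¬ Const φ ((Q.input i 1).val v)))).card := by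
      apply card_le_card
      intro i hi
      rw [mem_filter] at hi ⊢
      exact ⟨hi.1, Nat.lt_succ_of_lt hi.2.1, hi.2.2⟩
    by_cases hk : k < Q.size
    swap
    · refine ⟨W, hW1.trans (Nat.mul_le_mul_left _ hmono), fun i _ => hW2 i ?_⟩
      have := i.2
      omega
    · let g : Fin Q.size := ⟨k, hk⟩
      have hinp : ∀ b, Rep φ W ((Q.input g b).val v) :=
        rep_input Q Y φ hY hN hC v W g (fun j hj => hW2 j hj)
      by_cases hg : Const φ (v g)
      · refine ⟨W, hW1.trans (Nat.mul_le_mul_left _ hmono), fun i hi => ?_⟩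
        rcases Nat.lt_succ_iff_lt_or_eq.1 hi with h | h
        · exact hW2 i h
        · have : i = g := Fin.ext h
          rw [this]
          exact Rep.of_const hg
      · by_cases h0 : Const φ ((Q.input g 0).val v)
        · refine ⟨W, hW1.trans (Nat.mul_le_mul_left _ hmono), fun i hi => ?_⟩
          rcases Nat.lt_succ_iff_lt_or_eq.1 hi with h | h
          · exact hW2 i h
          · have : i = g := Fin.ext h
            rw [this, hv g]
            exact Rep.app_right _ h0 (hinp 1)
        · by_cases h1 : Const φ ((Q.input g 1).val v)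
          · refine ⟨W, hW1.trans (Nat.mul_le_mul_left _ hmono), fun i hi => ?_⟩
            rcases Nat.lt_succ_iff_lt_or_eq.1 hi with h | h
            · exact hW2 i h
            · have : i = g := Fin.ext h
              rw [this, hv g]
              exact Rep.app_left _ (hinp 0) h1
          · -- a gate with two inputs depending on the parameter
            obtain ⟨S0, hS0, hS0'⟩ := (hinp 0).exists_mem
            obtain ⟨S1, hS1, hS1'⟩ := (hinp 1).exists_mem
            refine ⟨(W ⊔ S0) ⊔ S1, ?_, fun i hi => ?_⟩
            · have e1 := Submodule.finrank_add_le_finrank_add_finrank (W ⊔ S0) S1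
              have e2 := Submodule.finrank_add_le_finrank_add_finrank W S0
              have e3 : (((univ : Finset (Fin Q.size)).filter (fun i => ¬ Const φ (v i))).filter
                  (fun i : Fin Q.size => (i : ℕ) < k ∧ (¬ Const φ ((Q.input i 0).val v) ∧
                    ¬ Const φ ((Q.input i 1).val v)))).card + 1 ≤
                  (((univ : Finset (Fin Q.size)).filter (fun i => ¬ Const φ (v i))).filter
                  (fun i : Fin Q.size => (i : ℕ) < k + 1 ∧ (¬ Const φ ((Q.input i 0).val v) ∧
                    ¬ Const φ ((Q.input i 1).val v)))).card := by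
                rw [← card_insert_of_notMem (a := g)]
                · apply card_le_card
                  intro i hi
                  rw [mem_insert] at hi
                  rcases hi with rfl | hi
                  · rw [mem_filter, mem_filter]
                    exact ⟨⟨mem_univ _, hg⟩, Nat.lt_succ_self k, h0, h1⟩
                  · rw [mem_filter] at hi ⊢
                    exact ⟨hi.1, Nat.lt_succ_of_lt hi.2.1, hi.2.2⟩
                · rw [mem_filter]
                  rintro ⟨-, h, -⟩
                  exact absurd h (lt_irrefl k)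
              omega
            · rcases Nat.lt_succ_iff_lt_or_eq.1 hi with h | h
              · exact (hW2 i h).mono (le_sup_left.trans le_sup_left)
              · have : i = g := Fin.ext h
                rw [this, hv g]
                apply Rep.of_mem
                intro t
                apply app_mem
                · exact hS0' _ (le_sup_left.trans le_sup_left) (le_sup_right.trans le_sup_left)
                · exact hS1' _ (le_sup_left.trans le_sup_left) le_sup_right

omit [FiniteDimensional Ω V] [Nonempty T] in
/-- Gates that read no variable of the block do not depend on the parameter. -/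
lemma const_of_not_reads (Q : Circuit L I) (Y : Finset I)
    (φ : T → FractionRing (MvPolynomial I L) →+* TrivSqZeroExt Ω V)
    (hN : ∀ e, e ∉ Y → Const φ (algebraMap (MvPolynomial I L) _ (MvPolynomial.X e)))
    (hC : ∀ c : L, Const φ (algebraMap (MvPolynomial I L) _ (MvPolynomial.C c)))
    (v : Fin Q.size → FractionRing (MvPolynomial I L))
    (hv : ∀ i, v i = (Q.op i).app ((Q.input i 0).val v) ((Q.input i 1).val v))
    (i : Fin Q.size) (hi : ∀ e ∈ Y, ¬ Q.Reads i e) : Const φ (v i) := by
  induction i using WellFoundedLT.induction with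
  | ind i ih =>
    have h : ∀ b, Const φ ((Q.input i b).val v) := by
      intro b
      rcases hx : Q.input i b with e | c | j
      · exact hN e (fun he => hi e he (Circuit.Reads.var i b e hx))
      · exact hC c
      · exact ih j (Q.earlier i b j hx)
          (fun e he hr => hi e he (Circuit.Reads.gate i b j e hx hr))
    rw [hv i]
    exact (h 0).app _ (h 1)

/-- Kalorkoti's argument for circuits. -/
theorem kalorkoti (Q : Circuit L I) (Y : Finset I)
    (φ : T → FractionRing (MvPolynomial I L) →+* TrivSqZeroExt Ω V)
    (hY : ∀ e ∈ Y, ∀ t, (φ t (algebraMap (MvPolynomial I L) _ (MvPolynomial.X e))).snd = 0)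
    (hN : ∀ e, e ∉ Y → Const φ (algebraMap (MvPolynomial I L) _ (MvPolynomial.X e)))
    (hC : ∀ c : L, Const φ (algebraMap (MvPolynomial I L) _ (MvPolynomial.C c)))
    (v : Fin Q.size → FractionRing (MvPolynomial I L))
    (hv : ∀ i, v i = (Q.op i).app ((Q.input i 0).val v) ((Q.input i 1).val v))
    (i : Fin Q.size) :
    ∃ W : Submodule Ω V, Module.finrank Ω W ≤ 8 * (Q.occ Y + Q.reuseAt Y) + 4 ∧
      ∀ t, (φ t (v i)).snd ∈ W := by
  classical
  obtain ⟨W, hW1, hW2⟩ := induction_gates Q Y φ hY hN hC v hv Q.size
  obtain ⟨S, hS, hS'⟩ := (hW2 i i.2).exists_mem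
  refine ⟨W ⊔ S, ?_, hS' _ le_sup_left le_sup_right⟩
  have e1 := Submodule.finrank_add_le_finrank_add_finrank W S
  have e2 : (((univ : Finset (Fin Q.size)).filter (fun i => ¬ Const φ (v i))).filter
      (fun i : Fin Q.size => (i : ℕ) < Q.size ∧ (¬ Const φ ((Q.input i 0).val v) ∧
        ¬ Const φ ((Q.input i 1).val v)))).card ≤ Q.occ Y +
      ∑ j ∈ (univ : Finset (Fin Q.size)).filter (fun i => ¬ Const φ (v i)),
        (Q.fanOut j - 1) := by
    apply Q.count_le Y ((univ : Finset (Fin Q.size)).filter (fun i => ¬ Const φ (v i)))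
      (fun i b => ¬ Const φ ((Q.input i b).val v))
    · intro i b hb
      rcases h : Q.input i b with e | c | j
      · rw [h] at hb
        by_cases he : e ∈ Y
        · exact Or.inl ⟨e, he, rfl⟩
        · exact absurd (hN e he) hb
      · rw [h] at hb
        exact absurd (hC c) hb
      · rw [h] at hb
        exact Or.inr ⟨j, by rw [mem_filter]; exact ⟨mem_univ _, hb⟩, rfl⟩
    · intro i hi
      rw [mem_filter] at hi
      by_contra hcon
      rw [not_or, not_not, not_not] at hcon
      apply hi.2
      rw [hv i]
      exact hcon.1.app _ hcon.2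
    · intro i hi
      rw [mem_filter] at hi
      exact ⟨hi.1, hi.2.2⟩
  have e3 : ∑ j ∈ (univ : Finset (Fin Q.size)).filter (fun i => ¬ Const φ (v i)),
      (Q.fanOut j - 1) ≤ Q.reuseAt Y := by
    unfold Circuit.reuseAt
    apply Finset.sum_le_sum_of_subset
    intro j hj
    rw [mem_filter] at hj ⊢
    refine ⟨mem_univ _, ?_⟩
    by_contra hcon
    apply hj.2
    exact const_of_not_reads Q Y φ hN hC v hv j (fun e he hr => hcon ⟨e, he, hr⟩)
  omega

end Pool.Agent.Work.MP_499dc6_lc.FZ
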