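import Pool.Agent.Work.MP_499dc6_lc.FZ.Kalorkoti

set_option autoImplicit false

namespace Pool.Agent.Work.MP_499dc6_lc.FZ

open Finset TrivSqZeroExt

section Leaves

variable {L I : Type*}

/-- The variables at the leaves above an input. -/
def Input.leaves {s : ℕ} (l : Fin s → List I) : Input L I s → List I
  | Input.var e => [e]
  | Input.const _ => []
  | Input.gate j => l j

lemma Input.leaves_congr {s : ℕ} {l l' : Fin s → List I} (x : Input L I s)
    (h : ∀ j, x = Input.gate j → l j = l' j) : x.leaves l = x.leaves l' := by
  cases x with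
  | var e => rfl
  | const c => rfl
  | gate j => exact h j rfl

/-- The unfolding of a circuit into a formula. -/
lemma exists_leaves (Q : Circuit L I) : ∃ l : Fin Q.size → List I,
    ∀ i, l i = (Q.input i 0).leaves l ++ (Q.input i 1).leaves l := by
  classical
  have h : ∀ k : ℕ, ∃ l : Fin Q.size → List I, ∀ i : Fin Q.size, (i : ℕ) < k →
      l i = (Q.input i 0).leaves l ++ (Q.input i 1).leaves l := by
    intro k
    induction k with
    | zero => exact ⟨fun _ => [], fun i hi => absurd hi (Nat.not_lt_zero _)⟩
    | succ k ih =>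
      obtain ⟨l, hl⟩ := ih
      by_cases hk : k < Q.size
      swap
      · refine ⟨l, fun i _ => hl i ?_⟩
        have := i.2
        omega
      · let g : Fin Q.size := ⟨k, hk⟩
        let l' : Fin Q.size → List I :=
          Function.update l g ((Q.input g 0).leaves l ++ (Q.input g 1).leaves l)
        have hsame : ∀ i : Fin Q.size, (i : ℕ) ≤ k → ∀ b,
            (Q.input i b).leaves l = (Q.input i b).leaves l' := by
          intro i hi b
          apply Input.leaves_congr
          intro j hj
          have h1 : j < i := Q.earlier i b j hj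
          have h2 : j ≠ g := by
            intro h3
            rw [h3] at h1
            exact absurd (lt_of_lt_of_le h1 hi : k < k) (lt_irrefl k)
          exact (Function.update_of_ne h2 _ _).symm
        refine ⟨l', fun i hi => ?_⟩
        rcases Nat.lt_succ_iff_lt_or_eq.1 hi with h | h
        · have h2 : i ≠ g := by
            intro h3
            rw [h3] at h
            exact absurd h (lt_irrefl k)
          rw [← hsame i h.le 0, ← hsame i h.le 1, ← hl i h]
          exact Function.update_of_ne h2 _ _
        · have h2 : i = g := Fin.ext h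
          rw [h2, ← hsame g le_rfl 0, ← hsame g le_rfl 1]
          exact Function.update_self _ _ _
  obtain ⟨l, hl⟩ := h Q.size
  exact ⟨l, fun i => hl i i.2⟩

lemma length_leaves (Q : Circuit L I) (l : Fin Q.size → List I)
    (hl : ∀ i, l i = (Q.input i 0).leaves l ++ (Q.input i 1).leaves l) {D : ℕ}
    (d : Fin Q.size → Fin D) (hd : ∀ i b j, Q.input i b = Input.gate j → d j < d i)
    (i : Fin Q.size) : (l i).length ≤ 2 ^ ((d i : ℕ) + 1) := by
  induction i using WellFoundedLT.induction with
  | ind i ih =>
    have h : ∀ b, ((Q.input i b).leaves l).length ≤ 2 ^ (d i : ℕ) := by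
      intro b
      rcases hx : Q.input i b with e | c | j
      · exact Nat.one_le_two_pow
      · exact Nat.zero_le _
      · change (l j).length ≤ _
        have h1 : (d j : ℕ) < d i := hd i b j hx
        exact (ih j (Q.earlier i b j hx)).trans (Nat.pow_le_pow_right (by norm_num) h1)
    rw [hl i, List.length_append, pow_succ]
    have h0 := h 0
    have h1 := h 1
    omega

lemma count_sum [DecidableEq I] {T : Type*} (s : Finset T) (Y : T → Finset I)
    (hY : ∀ a ∈ s, ∀ b ∈ s, a ≠ b → Disjoint (Y a) (Y b)) (l : List I) :
    ∑ t ∈ s, l.countP (fun e => e ∈ Y t) ≤ l.length := by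
  classical
  induction l with
  | nil => simp
  | cons e l ih =>
    have h1 : ∀ t ∈ s, (e :: l).countP (fun e => e ∈ Y t) =
        l.countP (fun e => e ∈ Y t) + if e ∈ Y t then 1 else 0 := by
      intro t _
      rw [List.countP_cons]
      simp
    rw [Finset.sum_congr rfl h1, Finset.sum_add_distrib, List.length_cons]
    have h2 : ∑ t ∈ s, (if e ∈ Y t then 1 else 0) ≤ 1 := by
      rw [← Finset.card_filter, Finset.card_le_one]
      intro a ha b hb
      rw [Finset.mem_filter] at ha hb
      by_contra hab
      exact Finset.disjoint_left.1 (hY a ha.1 b hb.1 hab) ha.2 hb.2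
    omega

end Leaves

variable {L I Ω V : Type*} [Field L] [Field Ω] [AddCommGroup V] [Module Ω V] [Module Ωᵐᵒᵖ V]
  [IsCentralScalar Ω V] [FiniteDimensional Ω V] {T : Type*} [Nonempty T]

/-- Kalorkoti's argument for the unfolding. -/
theorem kalorkoti_unfold [DecidableEq I] (Q : Circuit L I) (Y : Finset I)
    (φ : T → FractionRing (MvPolynomial I L) →+* TrivSqZeroExt Ω V)
    (hY : ∀ e ∈ Y, ∀ t, (φ t (algebraMap (MvPolynomial I L) _ (MvPolynomial.X e))).snd = 0)
    (hN : ∀ e, e ∉ Y → Const φ (algebraMap (MvPolynomial I L) _ (MvPolynomial.X e)))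
    (hC : ∀ c : L, Const φ (algebraMap (MvPolynomial I L) _ (MvPolynomial.C c)))
    (v : Fin Q.size → FractionRing (MvPolynomial I L))
    (hv : ∀ i, v i = (Q.op i).app ((Q.input i 0).val v) ((Q.input i 1).val v))
    (l : Fin Q.size → List I)
    (hl : ∀ i, l i = (Q.input i 0).leaves l ++ (Q.input i 1).leaves l)
    (i : Fin Q.size) :
    ((l i).countP (fun e => e ∈ Y) = 0 → Const φ (v i)) ∧
    ∃ W : Submodule Ω V, Module.finrank Ω W ≤ 8 * ((l i).countP (fun e => e ∈ Y) - 1) ∧
      Rep φ W (v i) := by
  induction i using WellFoundedLT.induction with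
  | ind i ih =>
    have h : ∀ b, (((Q.input i b).leaves l).countP (fun e => e ∈ Y) = 0 →
        Const φ ((Q.input i b).val v)) ∧
        ∃ W : Submodule Ω V, Module.finrank Ω W ≤
          8 * (((Q.input i b).leaves l).countP (fun e => e ∈ Y) - 1) ∧
          Rep φ W ((Q.input i b).val v) := by
      intro b
      rcases hx : Q.input i b with e | c | j
      · change (([e] : List I).countP (fun e => e ∈ Y) = 0 →
          Const φ (algebraMap (MvPolynomial I L) _ (MvPolynomial.X e))) ∧
          ∃ W : Submodule Ω V, Module.finrank Ω W ≤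
            8 * (([e] : List I).countP (fun e => e ∈ Y) - 1) ∧
            Rep φ W (algebraMap (MvPolynomial I L) _ (MvPolynomial.X e))
        by_cases he : e ∈ Y
        · refine ⟨fun h0 => ?_, ⊥, ?_, ?_⟩
          · simp [he] at h0
          · rw [finrank_bot]
            exact Nat.zero_le _
          · apply Rep.of_mem
            intro t
            rw [hY e he t]
            exact Submodule.zero_mem _
        · refine ⟨fun _ => hN e he, ⊥, ?_, Rep.of_const (hN e he)⟩
          rw [finrank_bot]
          exact Nat.zero_le _
      · refine ⟨fun _ => hC c, ⊥, ?_, Rep.of_const (hC c)⟩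
        rw [finrank_bot]
        exact Nat.zero_le _
      · exact ih j (Q.earlier i b j hx)
    obtain ⟨hc0, W0, hW0, hr0⟩ := h 0
    obtain ⟨hc1, W1, hW1, hr1⟩ := h 1
    rw [hl i, List.countP_append, hv i]
    refine ⟨fun h0 => ?_, ?_⟩
    · exact (hc0 (by omega)).app _ (hc1 (by omega))
    · by_cases z0 : ((Q.input i 0).leaves l).countP (fun e => e ∈ Y) = 0
      · refine ⟨W1, ?_, Rep.app_right _ (hc0 z0) hr1⟩
        rw [z0, zero_add]
        exact hW1
      · by_cases z1 : ((Q.input i 1).leaves l).countP (fun e => e ∈ Y) = 0
        · refine ⟨W0, ?_, Rep.app_left _ hr0 (hc1 z1)⟩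
          rw [z1, add_zero]
          exact hW0
        · obtain ⟨S0, hS0, hS0'⟩ := hr0.exists_mem
          obtain ⟨S1, hS1, hS1'⟩ := hr1.exists_mem
          refine ⟨(W0 ⊔ W1) ⊔ (S0 ⊔ S1), ?_, ?_⟩
          · have e1 := Submodule.finrank_add_le_finrank_add_finrank (W0 ⊔ W1) (S0 ⊔ S1)
            have e2 := Submodule.finrank_add_le_finrank_add_finrank W0 W1
            have e3 := Submodule.finrank_add_le_finrank_add_finrank S0 S1
            omega
          · apply Rep.of_mem
            intro t
            apply app_mem
            · exact hS0' _ (le_sup_left.trans le_sup_left) (le_sup_left.trans le_sup_right)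
            · exact hS1' _ (le_sup_right.trans le_sup_left) (le_sup_right.trans le_sup_right)

end Pool.Agent.Work.MP_499dc6_lc.FZ
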