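import Pool.Agent.Work.MP_499dc6_lc.FZ.Point
import Pool.Agent.Work.MP_499dc6_lc.FZ.Unfold

set_option autoImplicit false

namespace Pool.Agent.Work.MP_499dc6_lc.FZ

open MvPolynomial TrivSqZeroExt Finset
open Pool.Agent.Work.MP_499dc6_lc.H21

open scoped PowerSeries

universe u

variable {K : Type u} [Field K] {n r : ℕ}

lemma uv_cells (G : Cells n r) (e : Fin n × Fin n) (he : e ∈ G.cells) (p : G.A × G.B) :
    uv G e p = 0 := by
  have h1 := G.snd_MM_block (K := ℚ) (fun _ => ∅) (fun _ => ∅) (fun _ => 0) (fun _ => 0) e he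
  have h2 := congrFun h1 p
  rw [G.snd_MM] at h2
  unfold uv
  by_cases h : (p.1 : Fin n) = e.1 ∧ (p.2 : Fin n) = e.2
  · rw [if_pos h] at h2
    exact absurd h2 one_ne_zero
  · rw [if_neg h]

/-- The rank of the derivatives for one block. -/
theorem rank_block [CharZero K] (G : Cells n r)
    (hn : 2 * r + 1 ≤ n) (hr : n - 2 * r ≤ 2 ^ r) (R : MvPolynomial (Fin n × Fin n) K⟦X⟧) :
    ∃ φ : (ℕ → K) × (ℕ → K) → Rat (LaurentSeries K) (Fin n × Fin n) →+*
        TrivSqZeroExt (Rat (LaurentSeries K) (Fin n × Fin n))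
          (G.A × G.B → Rat (LaurentSeries K) (Fin n × Fin n)),
      (∀ e ∈ G.cells, ∀ t, (φ t (algebraMap (MvPolynomial (Fin n × Fin n) (LaurentSeries K)) _ (X e))).snd = 0) ∧
      (∀ e, e ∉ G.cells → Const φ (algebraMap (MvPolynomial (Fin n × Fin n) (LaurentSeries K)) _ (X e))) ∧
      (∀ c : LaurentSeries K, Const φ (algebraMap (MvPolynomial (Fin n × Fin n) (LaurentSeries K)) _ (C c))) ∧
      ∀ W : Submodule (Rat (LaurentSeries K) (Fin n × Fin n))
          (G.A × G.B → Rat (LaurentSeries K) (Fin n × Fin n)),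
        (∀ t, (φ t (algebraMap (MvPolynomial (Fin n × Fin n) (LaurentSeries K)) _ (MvPolynomial.map (algebraMap K⟦X⟧ (LaurentSeries K))
          (permP K⟦X⟧ n + C PowerSeries.X * R)))).snd ∈ W) →
        (n - 2 * r) ^ 2 ≤ Module.finrank (Rat (LaurentSeries K) (Fin n × Fin n)) W := by
  classical
  obtain ⟨cR, hcR, hcR'⟩ := Cells.exists_code (r := r) G.A (by
    rw [G.card_A (by omega)]
    exact hr)
  obtain ⟨cC, hcC, hcC'⟩ := Cells.exists_code (r := r) G.B (by
    rw [G.card_B (by omega)]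
    exact hr)
  refine ⟨fun t => phi (ptL G cR cC t) (uv G), ?_, ?_, ?_, ?_⟩
  · intro e he t
    rw [phi_X]
    simp only [snd_add, snd_inl, snd_inr, zero_add]
    funext p
    rw [uv_cells G e he p]
    simp
  · intro e he t t'
    dsimp only
    rw [phi_X, phi_X]
    congr 2
    unfold gen ptL pt
    rw [G.M0_indep cR cC t.1 t.2 t'.1 t'.2 e he]
  · intro c t t'
    dsimp only
    rw [phi_C, phi_C]
  · intro W hW2
    have h1 : Fintype.card (G.A × G.B) ≤
        Module.finrank (Rat (LaurentSeries K) (Fin n × Fin n)) W := by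
      apply card_le_finrank (f1 K n) (f2 K n) f1_injective
        (DD G cR cC (permP K⟦X⟧ n + C PowerSeries.X * R))
      · apply G.finrank_le cR cC hn hcR hcR' hcC hcC'
        intro y z
        apply Submodule.subset_span
        refine ⟨(y, z), ?_⟩
        funext p
        exact f2_DD G cR cC R (y, z) p
      · intro t
        have h2 := hW2 t
        have h3 : (fun p => f1 K n (DD G cR cC (permP K⟦X⟧ n + C PowerSeries.X * R) t p)) =
            (phi (ptL G cR cC t) (uv G) (algebraMap _ _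
              (MvPolynomial.map (algebraMap K⟦X⟧ (LaurentSeries K))
                (permP K⟦X⟧ n + C PowerSeries.X * R)))).snd := by
          funext p
          exact f1_DD G cR cC _ t p
        rw [h3]
        exact h2
    rw [Fintype.card_prod, Fintype.card_coe, Fintype.card_coe, G.card_A (by omega),
      G.card_B (by omega)] at h1
    rw [pow_two]
    exact h1

/-- The bound for one block. -/
theorem block_bound [CharZero K] (G : Cells n r)
    (hn : 2 * r + 1 ≤ n) (hr : n - 2 * r ≤ 2 ^ r)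
    (Q : Circuit (LaurentSeries K) (Fin n × Fin n)) (R : MvPolynomial (Fin n × Fin n) K⟦X⟧)
    (hQ : Q.Computes (MvPolynomial.map (algebraMap K⟦X⟧ (LaurentSeries K))
      (permP K⟦X⟧ n + C PowerSeries.X * R))) :
    (n - 2 * r) ^ 2 ≤ 8 * (Q.occ G.cells + Q.reuseAt G.cells) + 4 := by
  obtain ⟨v, hv, i, hi⟩ := hQ
  obtain ⟨φ, hY, hN, hC, h⟩ := rank_block G hn hr R
  obtain ⟨W, hW1, hW2⟩ := kalorkoti Q G.cells φ hY hN hC v hv i
  rw [hi] at hW2
  exact (h W hW2).trans hW1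

/-- The bound for one block and the unfolding. -/
theorem block_bound_unfold [CharZero K] (G : Cells n r)
    (hn : 2 * r + 1 ≤ n) (hr : n - 2 * r ≤ 2 ^ r)
    (Q : Circuit (LaurentSeries K) (Fin n × Fin n)) (R : MvPolynomial (Fin n × Fin n) K⟦X⟧)
    (v : Fin Q.size → FractionRing (MvPolynomial (Fin n × Fin n) (LaurentSeries K)))
    (hv : ∀ i, v i = (Q.op i).app ((Q.input i 0).val v) ((Q.input i 1).val v))
    (l : Fin Q.size → List (Fin n × Fin n))
    (hl : ∀ i, l i = (Q.input i 0).leaves l ++ (Q.input i 1).leaves l)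
    (i : Fin Q.size)
    (hi : v i = algebraMap _ _ (MvPolynomial.map (algebraMap K⟦X⟧ (LaurentSeries K))
      (permP K⟦X⟧ n + C PowerSeries.X * R))) :
    (n - 2 * r) ^ 2 ≤ 8 * (l i).countP (fun e => e ∈ G.cells) + 4 := by
  obtain ⟨φ, hY, hN, hC, h⟩ := rank_block G hn hr R
  obtain ⟨-, W, hW1, hr1⟩ := kalorkoti_unfold Q G.cells φ hY hN hC v hv l hl i
  obtain ⟨S, hS, hS'⟩ := hr1.exists_mem
  have h1 := hS' (W ⊔ S) le_sup_left le_sup_right
  rw [hi] at h1
  have h2 := h (W ⊔ S) h1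
  have e1 := Submodule.finrank_add_le_finrank_add_finrank W S
  omega

/-- Summation over the tiles. -/
theorem tile_sum (hn : 2 * r + 2 ≤ n) (o : Finset (Fin n × Fin n) → ℕ) (S p : ℕ)
    (h1 : ∑ t ∈ range n ×ˢ range (n / (2 * r)), o (Cells.tileSet n r (by omega) t) ≤ S)
    (h2 : ∀ G : Cells n r, (n - 2 * r) ^ 2 ≤ 8 * (o G.cells + p) + 4) :
    n * (n / (2 * r)) * (n - 2 * r) ^ 2 ≤ 8 * S + n * (n / (2 * r)) * (8 * p + 4) := by
  classical
  have hn0 : 0 < n := by omega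
  have h2 : ∀ t ∈ range n ×ˢ range (n / (2 * r)),
      (n - 2 * r) ^ 2 ≤ 8 * o (Cells.tileSet n r hn0 t) + (8 * p + 4) := by
    rintro ⟨c, t⟩ hp
    rw [mem_product, mem_range, mem_range] at hp
    unfold Cells.tileSet
    rw [dif_pos hp.2]
    have h3 := h2 (Cells.tile n r c t hn0 hp.2)
    dsimp only
    omega
  have h5 := Finset.sum_le_sum h2
  rw [Finset.sum_const, Finset.sum_add_distrib, Finset.sum_const, card_product, card_range,
    card_range, smul_eq_mul, smul_eq_mul, ← Finset.mul_sum] at h5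
  exact h5.trans (Nat.add_le_add_right (Nat.mul_le_mul_left _ h1) _)

/-- Arithmetic for the final step. -/
lemma cube_bound' {n L : ℕ} (hn : 70 ≤ n) (h : 10 * L ≤ n) :
    n ^ 3 + 8 * n ≤ 2 * (n - 2 * L) ^ 3 := by
  have h1 : 4 * n ≤ 5 * (n - 2 * L) := by omega
  have h2 : (4 * n) ^ 3 ≤ (5 * (n - 2 * L)) ^ 3 := Nat.pow_le_pow_left h1 3
  rw [mul_pow, mul_pow] at h2
  have h3 : 4900 * n ≤ n ^ 3 := by
    have h4 : 70 * 70 ≤ n * n := Nat.mul_le_mul hn hn
    calc 4900 * n = 70 * 70 * n := by norm_num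
      _ ≤ n * n * n := Nat.mul_le_mul_right _ h4
      _ = n ^ 3 := by ring
  generalize n ^ 3 = a at h2 h3 ⊢
  generalize (n - 2 * L) ^ 3 = b at h2 ⊢
  omega

/-- The final computation. -/
lemma final_bound (hn : 70 ≤ n) (S p : ℕ)
    (h1 : n * (n / (2 * Nat.clog 2 n)) * (n - 2 * Nat.clog 2 n) ^ 2 ≤
      8 * S + n * (n / (2 * Nat.clog 2 n)) * (8 * p + 4)) :
    n ^ 4 ≤ 32 * Nat.clog 2 n * S + 16 * n ^ 2 * p := by
  have h10 : 10 * Nat.clog 2 n ≤ n := ten_clog_le n hn
  have hL0 : 0 < Nat.clog 2 n := Nat.clog_pos (by norm_num) (by omega)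
  generalize Nat.clog 2 n = L at h1 h10 hL0 ⊢
  have h2 := cube_bound' hn h10
  have h3 : n - 2 * L ≤ 2 * L * (n / (2 * L)) := by
    have := Nat.lt_mul_div_succ n (b := 2 * L) (by omega)
    rw [Nat.mul_add] at this
    omega
  have h4 : 2 * L * (n / (2 * L)) ≤ n := Nat.mul_div_le n (2 * L)
  have h5 : n ^ 4 + 8 * n ^ 2 ≤ 32 * L * S + 16 * n ^ 2 * p + 8 * n ^ 2 := by
    calc n ^ 4 + 8 * n ^ 2 = n * (n ^ 3 + 8 * n) := by ring
      _ ≤ n * (2 * (n - 2 * L) ^ 3) := Nat.mul_le_mul_left _ h2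
      _ = 2 * n * (n - 2 * L) * (n - 2 * L) ^ 2 := by ring
      _ ≤ 2 * n * (2 * L * (n / (2 * L))) * (n - 2 * L) ^ 2 :=
          Nat.mul_le_mul_right _ (Nat.mul_le_mul_left _ h3)
      _ = 4 * L * (n * (n / (2 * L)) * (n - 2 * L) ^ 2) := by ring
      _ ≤ 4 * L * (8 * S + n * (n / (2 * L)) * (8 * p + 4)) :=
          Nat.mul_le_mul_left _ h1
      _ = 32 * L * S + (2 * L * (n / (2 * L))) * (n * (16 * p + 8)) := by ring
      _ ≤ 32 * L * S + n * (n * (16 * p + 8)) :=
          Nat.add_le_add_left (Nat.mul_le_mul_right _ h4) _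
      _ = 32 * L * S + 16 * n ^ 2 * p + 8 * n ^ 2 := by ring
  exact Nat.le_of_add_le_add_right h5

/-- Size and reuse. -/
theorem circuit_bound_clog [CharZero K] (hn : 70 ≤ n)
    (Q : Circuit (LaurentSeries K) (Fin n × Fin n)) (R : MvPolynomial (Fin n × Fin n) K⟦X⟧)
    (hQ : Q.Computes (MvPolynomial.map (algebraMap K⟦X⟧ (LaurentSeries K))
      (permP K⟦X⟧ n + C PowerSeries.X * R))) :
    n ^ 4 ≤ 32 * Nat.clog 2 n * Q.varInputs +
      16 * ∑ j, (Q.fanOut j - 1) * min (2 * Nat.clog 2 n * Q.numVars j) (n ^ 2) := by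
  have h10 : 10 * Nat.clog 2 n ≤ n := ten_clog_le n hn
  have hL1 : n ≤ 2 ^ Nat.clog 2 n := Nat.le_pow_clog (by norm_num) n
  have h1 := final_bound hn (Q.varInputs + ∑ j, (Q.fanOut j - 1) *
      min (Q.numVars j) (n * (n / (2 * Nat.clog 2 n)))) 0 (by
    apply tile_sum (by omega) (fun Y => Q.occ Y + Q.reuseAt Y)
    · rw [Finset.sum_add_distrib]
      apply Nat.add_le_add
      · exact Q.occ_sum _ _ (Cells.tileSet_disjoint n _ _)
      · have h2 := Q.reuse_sum _ _ (Cells.tileSet_disjoint n (Nat.clog 2 n) (by omega))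
        rwa [card_product, card_range, card_range] at h2
    · intro G
      exact block_bound G (by omega) (by omega) Q R hQ)
  rw [mul_zero, add_zero, mul_add] at h1
  refine h1.trans (Nat.add_le_add_left ?_ _)
  rw [Finset.mul_sum, Finset.mul_sum]
  apply Finset.sum_le_sum
  intro j _
  have h3 : 2 * Nat.clog 2 n * min (Q.numVars j) (n * (n / (2 * Nat.clog 2 n))) ≤
      min (2 * Nat.clog 2 n * Q.numVars j) (n ^ 2) := by
    rw [le_min_iff]
    refine ⟨Nat.mul_le_mul_left _ (min_le_left _ _), ?_⟩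
    calc 2 * Nat.clog 2 n * min (Q.numVars j) (n * (n / (2 * Nat.clog 2 n)))
        ≤ 2 * Nat.clog 2 n * (n * (n / (2 * Nat.clog 2 n))) :=
          Nat.mul_le_mul_left _ (min_le_right _ _)
      _ = n * (2 * Nat.clog 2 n * (n / (2 * Nat.clog 2 n))) := by ring
      _ ≤ n * n := Nat.mul_le_mul_left _ (Nat.mul_div_le n (2 * Nat.clog 2 n))
      _ = n ^ 2 := by ring
  calc 32 * Nat.clog 2 n * ((Q.fanOut j - 1) *
        min (Q.numVars j) (n * (n / (2 * Nat.clog 2 n))))
      = 16 * ((Q.fanOut j - 1) * (2 * Nat.clog 2 n *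
        min (Q.numVars j) (n * (n / (2 * Nat.clog 2 n))))) := by ring
    _ ≤ 16 * ((Q.fanOut j - 1) * min (2 * Nat.clog 2 n * Q.numVars j) (n ^ 2)) :=
        Nat.mul_le_mul_left _ (Nat.mul_le_mul_left _ h3)

/-- Depth. -/
theorem circuit_depth_clog [CharZero K] (hn : 70 ≤ n)
    (Q : Circuit (LaurentSeries K) (Fin n × Fin n)) (R : MvPolynomial (Fin n × Fin n) K⟦X⟧)
    (hQ : Q.Computes (MvPolynomial.map (algebraMap K⟦X⟧ (LaurentSeries K))
      (permP K⟦X⟧ n + C PowerSeries.X * R))) :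
    n ^ 4 ≤ 32 * Nat.clog 2 n * 2 ^ Q.depth := by
  classical
  have h10 : 10 * Nat.clog 2 n ≤ n := ten_clog_le n hn
  have hL1 : n ≤ 2 ^ Nat.clog 2 n := Nat.le_pow_clog (by norm_num) n
  obtain ⟨v, hv, i, hi⟩ := hQ
  obtain ⟨l, hl⟩ := exists_leaves Q
  have hne : {D | ∃ d : Fin Q.size → Fin D,
      ∀ i b j, Q.input i b = Input.gate j → d j < d i}.Nonempty :=
    ⟨Q.size, fun i => i, fun i b j h => Q.earlier i b j h⟩
  obtain ⟨d, hd⟩ := Nat.sInf_mem hne
  have hlen : (l i).length ≤ 2 ^ Q.depth :=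
    (length_leaves Q l hl d hd i).trans (Nat.pow_le_pow_right (by norm_num) (d i).2)
  have h1 := final_bound hn (2 ^ Q.depth) 0 (by
    apply tile_sum (by omega) (fun Y => (l i).countP (fun e => e ∈ Y))
    · exact (count_sum _ _ (Cells.tileSet_disjoint n _ _) (l i)).trans hlen
    · intro G
      exact block_bound_unfold G (by omega) (by omega) Q R v hv l hl i hi)
  rwa [mul_zero, add_zero] at h1

end Pool.Agent.Work.MP_499dc6_lc.FZ
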