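import Mathlib

set_option autoImplicit false

namespace Pool.Agent.Work.MP_499dc6_lc.FZ

open Module

/-- Vectors over a ring which span after one ring homomorphism to a field have full rank after any
injective ring homomorphism to a field. -/
lemma card_le_finrank {c T S K Ω : Type*} [Fintype c] [CommRing S] [Field K] [Field Ω]
    (f1 : S →+* Ω) (f2 : S →+* K) (hf1 : Function.Injective f1) (D : T → c → S)
    (hD : Submodule.span K (Set.range (fun t => fun p => f2 (D t p))) = ⊤)
    (W : Submodule Ω (c → Ω)) (hW : ∀ t, (fun p => f1 (D t p)) ∈ W) :
    Fintype.card c ≤ finrank Ω W := by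
  classical
  obtain ⟨f, hf, -, hind⟩ := Submodule.exists_fun_fin_finrank_span_eq K
    (Set.range (fun t => fun p => f2 (D t p)))
  have hN : finrank K (Submodule.span K (Set.range (fun t => fun p => f2 (D t p)))) =
      Fintype.card c := by
    rw [hD, finrank_top, Module.finrank_fintype_fun_eq_card]
  have e : c ≃ Fin (finrank K (Submodule.span K (Set.range (fun t => fun p => f2 (D t p))))) :=
    (Fintype.equivFinOfCardEq hN.symm)
  choose t ht using fun i : c => hf (e i)
  let M : Matrix c c S := fun i p => D (t i) p
  have h1 : LinearIndependent K (M.map f2).row := by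
    have h2 : (M.map f2).row = f ∘ e := by
      funext i
      exact ht i
    rw [h2]
    exact hind.comp _ e.injective
  have h3 : (M.map f2).det ≠ 0 := by
    rw [Matrix.linearIndependent_rows_iff_isUnit, Matrix.isUnit_iff_isUnit_det] at h1
    exact h1.ne_zero
  have h4 : M.det ≠ 0 := by
    intro h
    apply h3
    have h5 : (M.map f2).det = f2 M.det := by
      rw [RingHom.map_det]
      rfl
    rw [h5, h, map_zero]
  have h6 : (M.map f1).det ≠ 0 := by
    have h5 : (M.map f1).det = f1 M.det := by
      rw [RingHom.map_det]
      rfl
    rw [h5]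
    intro h
    apply h4
    apply hf1
    rw [h, map_zero]
  have h7 : LinearIndependent Ω (fun i => (⟨(M.map f1) i, hW (t i)⟩ : W)) := by
    apply LinearIndependent.of_comp W.subtype
    exact Matrix.linearIndependent_rows_of_det_ne_zero h6
  exact h7.fintype_card_le_finrank

end Pool.Agent.Work.MP_499dc6_lc.FZ
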