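import Pool.Agent.Work.MP_499dc6_lc.FZ.Kalorkoti
import Pool.Agent.Work.MP_499dc6_lc.FZ.Rank
import Pool.Agent.Work.MP_499dc6_lc.FZ.Generic
import Pool.Agent.Work.MP_499dc6_lc.H21Tile

set_option autoImplicit false

namespace Pool.Agent.Work.MP_499dc6_lc.FZ

open MvPolynomial TrivSqZeroExt Finset
open Pool.Agent.Work.MP_499dc6_lc.H21

open scoped PowerSeries

universe u

variable {K : Type u} [Field K] {n r : ℕ}

/-- the generic row permanent -/
noncomputable def permP (R : Type*) [CommRing R] (n : ℕ) : MvPolynomial (Fin n × Fin n) R :=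
  (Matrix.of fun i j => (X (i, j) : MvPolynomial (Fin n × Fin n) R)).permanent

lemma map_permP {R S : Type*} [CommRing R] [CommRing S] (f : MvPolynomial (Fin n × Fin n) R →+* S) :
    f (permP R n) = ∑ σ : Equiv.Perm (Fin n), ∏ k, f (X (k, σ k)) := by
  unfold permP
  rw [← Matrix.permanent_transpose, Matrix.permanent, map_sum]
  apply Finset.sum_congr rfl
  intro σ _
  rw [map_prod]
  rfl

/-- The unit vectors. -/
def uv (G : Cells n r) (e : Fin n × Fin n) (p : G.A × G.B) : ℕ :=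
  if (p.1 : Fin n) = e.1 ∧ (p.2 : Fin n) = e.2 then 1 else 0

/-- The points. -/
noncomputable def pt (G : Cells n r) (cR cC : Fin n → Finset ℕ) (t : (ℕ → K) × (ℕ → K))
    (e : Fin n × Fin n) : K :=
  G.M0 cR cC t.1 t.2 e.1 e.2

/-- The points over the Laurent series. -/
noncomputable def ptL (G : Cells n r) (cR cC : Fin n → Finset ℕ) (t : (ℕ → K) × (ℕ → K))
    (e : Fin n × Fin n) : LaurentSeries K :=
  algebraMap K⟦X⟧ (LaurentSeries K) (PowerSeries.C (pt G cR cC t e))

/-- The derivatives over the power series. -/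
noncomputable def DD (G : Cells n r) (cR cC : Fin n → Finset ℕ)
    (P : MvPolynomial (Fin n × Fin n) K⟦X⟧) (t : (ℕ → K) × (ℕ → K)) (p : G.A × G.B) :
    MvPolynomial (Fin n × Fin n) K⟦X⟧ :=
  (EV (C : K⟦X⟧ →+* MvPolynomial (Fin n × Fin n) K⟦X⟧)
    (fun e => C (PowerSeries.C (pt G cR cC t e)) + X e) (uv G) P).snd p

/-- the inclusion in the function field -/
noncomputable def f1 (K : Type u) [Field K] (n : ℕ) :
    MvPolynomial (Fin n × Fin n) K⟦X⟧ →+* Rat (LaurentSeries K) (Fin n × Fin n) :=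
  (algebraMap (MvPolynomial (Fin n × Fin n) (LaurentSeries K)) _).comp
    (MvPolynomial.map (algebraMap K⟦X⟧ (LaurentSeries K)))

/-- the residue map -/
noncomputable def f2 (K : Type u) [Field K] (n : ℕ) :
    MvPolynomial (Fin n × Fin n) K⟦X⟧ →+* K :=
  (PowerSeries.constantCoeff (R := K)).comp MvPolynomial.constantCoeff

lemma f1_injective : Function.Injective (f1 K n) := by
  unfold f1
  rw [RingHom.coe_comp]
  apply (IsFractionRing.injective _ _).comp
  apply MvPolynomial.map_injective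
  exact IsFractionRing.injective K⟦X⟧ (LaurentSeries K)

lemma f1_DD (G : Cells n r) (cR cC : Fin n → Finset ℕ)
    (P : MvPolynomial (Fin n × Fin n) K⟦X⟧) (t : (ℕ → K) × (ℕ → K)) (p : G.A × G.B) :
    f1 K n (DD G cR cC P t p) =
      (phi (ptL G cR cC t) (uv G) (algebraMap _ _
        (MvPolynomial.map (algebraMap K⟦X⟧ (LaurentSeries K)) P))).snd p := by
  unfold DD
  rw [← snd_tmap, tmap_EV, phi_algebraMap, EV_map]
  congr 2
  have h1 : (f1 K n).comp (C : K⟦X⟧ →+* MvPolynomial (Fin n × Fin n) K⟦X⟧) =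
      ((algebraMap (MvPolynomial (Fin n × Fin n) (LaurentSeries K))
        (Rat (LaurentSeries K) (Fin n × Fin n))).comp C).comp
        (algebraMap K⟦X⟧ (LaurentSeries K)) := by
    ext a
    simp [f1]
  have h2 : (fun e => f1 K n (C (PowerSeries.C (pt G cR cC t e)) + X e)) =
      gen (ptL G cR cC t) := by
    funext e
    simp [f1, gen, ptL]
  rw [h1, h2]

lemma f2_DD (G : Cells n r) (cR cC : Fin n → Finset ℕ)
    (P : MvPolynomial (Fin n × Fin n) K⟦X⟧) (t : (ℕ → K) × (ℕ → K)) (p : G.A × G.B) :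
    f2 K n (DD G cR cC (permP K⟦X⟧ n + C PowerSeries.X * P) t p) =
      (∑ σ : Equiv.Perm (Fin n), ∏ k, G.MM cR cC t.1 t.2 k (σ k)).snd p := by
  unfold DD
  rw [← snd_tmap, tmap_EV]
  have h2 : (fun e => f2 K n (C (PowerSeries.C (pt G cR cC t e)) + X e)) =
      pt G cR cC t := by
    funext e
    simp [f2]
  rw [h2, map_add, map_mul, map_permP]
  have h3 : EV ((f2 K n).comp (C : K⟦X⟧ →+* MvPolynomial (Fin n × Fin n) K⟦X⟧))
      (pt G cR cC t) (uv G) (C PowerSeries.X) = 0 := by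
    simp [EV, f2]
  rw [h3, zero_mul, add_zero]
  have h4 : ∀ e : Fin n × Fin n,
      EV ((f2 K n).comp (C : K⟦X⟧ →+* MvPolynomial (Fin n × Fin n) K⟦X⟧))
      (pt G cR cC t) (uv G) (X e) = G.MM cR cC t.1 t.2 e.1 e.2 := by
    intro e
    apply TrivSqZeroExt.ext
    · simp [EV, Cells.MM, pt]
    · funext p
      simp [EV, Cells.MM, uv]
  simp only [h4]

end Pool.Agent.Work.MP_499dc6_lc.FZ
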